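import Pool.Agent.Lib.MP_0fb7f5_co.GrowD

set_option autoImplicit false

namespace Pool.Agent.Results.MP_0fb7f5_co.GrowthExponent

open Pool.Agent.Lib.MP_0fb7f5_co

/-- Let `B n` be the number of boolean intervals of the strong Bruhat order of the symmetric
group on `n` letters. Then `log (B n) / (n log n)` converges to its supremum, which lies strictly
between `1` and `2`. -/
theorem result (B : ℕ → ℕ)
    (hB : ∀ n, B n = Nat.card {x : Equiv.Perm (Fin n) × Equiv.Perm (Fin n) //
      BruhatLE x.1 x.2 ∧ IsBooleanInterval x.1 x.2}) :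
    ∃ γ : ℝ, 1 < γ ∧ γ < 2 ∧ (∀ n : ℕ, Real.log (B n) / (n * Real.log n) ≤ γ) ∧
      Filter.Tendsto (fun n : ℕ => Real.log (B n) / (n * Real.log n)) Filter.atTop (nhds γ) := by
  obtain rfl : B = Grow.NB := funext fun n => (hB n).trans (Grow.card_eq n)
  exact ⟨⨆ n, Grow.A n, Grow.one_lt_sup, Grow.sup_lt_two, fun n => le_ciSup Grow.A_bdd n,
    Grow.A_tendsto⟩

end Pool.Agent.Results.MP_0fb7f5_co.GrowthExponent
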