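import Pool.Agent.Lib.MP_0fb7f5_co.MaxA

set_option autoImplicit false

namespace Pool.Agent.Results.MP_0fb7f5_co.MaxRank

open Pool.Agent.Lib.MP_0fb7f5_co

/-- The rank `r` of a boolean interval of the strong Bruhat order on `n` letters satisfies
`4 ^ r ≤ n ^ n`. -/
theorem result (n : ℕ) (u v : Equiv.Perm (Fin n)) (h : BruhatLE u v)
    (hb : IsBooleanInterval u v) : 4 ^ (len v - len u) ≤ n ^ n :=
  Grow.rank_le h.rle hb

end Pool.Agent.Results.MP_0fb7f5_co.MaxRank
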