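import Pool.Agent.Lib.MP_0fb7f5_co.PatB

set_option autoImplicit false

namespace Pool.Agent.Results.MP_0fb7f5_co.PatternCriterion

open Pool.Agent.Lib.MP_0fb7f5_co

/-- A pair `(u, v)` of permutations satisfies `u ≤ v` in the strong Bruhat order with `[u, v]`
boolean if and only if the rank matrix of `v` is below that of `u` and, among occurrences whose
spanned rectangle lies in the region where the rank matrices differ, `u` avoids the patterns
`21` and `123` and `v` avoids the patterns `12` and `321`. -/
theorem result (n : ℕ) (u v : Equiv.Perm (Fin n)) :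
    (BruhatLE u v ∧ IsBooleanInterval u v) ↔
      ((∀ i j : Fin n, rk v i j ≤ rk u i j) ∧
        (¬ ∃ a b : Fin n, a < b ∧ u b < u a ∧ Region u v a b (u b) (u a)) ∧
        (¬ ∃ a c b : Fin n, a < c ∧ c < b ∧ u a < u c ∧ u c < u b ∧
          Region u v a b (u a) (u b)) ∧
        (¬ ∃ a b : Fin n, a < b ∧ v a < v b ∧ Region u v a b (v a) (v b)) ∧
        (¬ ∃ a c b : Fin n, a < c ∧ c < b ∧ v b < v c ∧ v c < v a ∧
          Region u v a b (v b) (v a))) :=
  Pat.pattern_iff u v

end Pool.Agent.Results.MP_0fb7f5_co.PatternCriterion
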